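import Mathlib

set_option autoImplicit false

/-!
# Generating functions of graded types
-/

namespace Pool.Agent.Y348.EE

open PowerSeries

/-- The generating function of a graded type. -/
noncomputable def gf {α : Type} (f : α → ℕ) : PowerSeries ℂ :=
  PowerSeries.mk fun m => (Nat.card {a : α // f a = m} : ℂ)

/-- All fibres are finite. -/
def FinFib {α : Type} (f : α → ℕ) : Prop := ∀ m, Finite {a : α // f a = m}

/-- The fibre of a sum grading. -/
def fibEquiv {α β : Type} (f : α → ℕ) (g : β → ℕ) (m : ℕ) :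
    {p : α × β // f p.1 + g p.2 = m} ≃
      Σ ij : {ij : ℕ × ℕ // ij ∈ Finset.HasAntidiagonal.antidiagonal m},
        {a : α // f a = ij.1.1} × {b : β // g b = ij.1.2} where
  toFun p := ⟨⟨(f p.1.1, g p.1.2), by simpa using p.2⟩, ⟨p.1.1, rfl⟩, ⟨p.1.2, rfl⟩⟩
  invFun q := ⟨(q.2.1.1, q.2.2.1), by
    have h := q.1.2
    rw [Finset.HasAntidiagonal.mem_antidiagonal] at h
    have h1 := q.2.1.2
    have h2 := q.2.2.2
    simp only [h1, h2, h]⟩
  left_inv p := rfl
  right_inv := by
    rintro ⟨⟨⟨i, j⟩, h⟩, ⟨a, ha⟩, ⟨b, hb⟩⟩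
    simp only at ha hb
    subst ha
    subst hb
    rfl

lemma FinFib.prod {α β : Type} {f : α → ℕ} {g : β → ℕ} (hf : FinFib f) (hg : FinFib g) :
    FinFib (fun p : α × β => f p.1 + g p.2) := by
  intro m
  have h : ∀ ij : {ij : ℕ × ℕ // ij ∈ Finset.HasAntidiagonal.antidiagonal m},
      Finite ({a : α // f a = ij.1.1} × {b : β // g b = ij.1.2}) := by
    intro ij
    have := hf ij.1.1
    have := hg ij.1.2
    infer_instance
  exact Finite.of_equiv _ (fibEquiv f g m).symm

lemma gf_prod {α β : Type} {f : α → ℕ} {g : β → ℕ} (hf : FinFib f) (hg : FinFib g) :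
    gf (fun p : α × β => f p.1 + g p.2) = gf f * gf g := by
  ext m
  rw [coeff_mul]
  simp only [gf, coeff_mk]
  rw [Nat.card_congr (fibEquiv f g m)]
  have h : ∀ ij : {ij : ℕ × ℕ // ij ∈ Finset.HasAntidiagonal.antidiagonal m},
      Finite ({a : α // f a = ij.1.1} × {b : β // g b = ij.1.2}) := by
    intro ij
    have := hf ij.1.1
    have := hg ij.1.2
    infer_instance
  rw [Nat.card_sigma]
  push_cast
  rw [← Finset.sum_coe_sort (Finset.HasAntidiagonal.antidiagonal m)]
  refine Finset.sum_congr rfl fun ij _ => ?_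
  rw [Nat.card_prod]
  push_cast
  rfl

lemma finFib_mul (c : ℕ) (hc : 0 < c) : FinFib (fun n : ℕ => c * n) := by
  intro m
  refine Finite.of_injective (β := Fin (m + 1)) (fun a => ⟨a.1, ?_⟩) ?_
  · have := a.2
    nlinarith [a.2]
  · intro a b h
    simp only [Fin.mk.injEq] at h
    exact Subtype.ext h

lemma gf_mul (c : ℕ) (hc : 0 < c) : gf (fun n : ℕ => c * n) * (1 - X ^ c) = 1 := by
  have hcard : ∀ m, (Nat.card {a : ℕ // c * a = m} : ℂ) = if c ∣ m then 1 else 0 := by
    intro m
    split_ifs with h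
    · obtain ⟨k, rfl⟩ := h
      have : Nat.card {a : ℕ // c * a = c * k} = 1 := by
        rw [Nat.card_eq_one_iff_unique]
        refine ⟨⟨fun a b => Subtype.ext ?_⟩, ⟨⟨k, rfl⟩⟩⟩
        have h1 := a.2
        have h2 := b.2
        have h3 : c * a.1 = c * b.1 := by rw [h1, h2]
        exact Nat.eq_of_mul_eq_mul_left hc h3
      rw [this, Nat.cast_one]
    · have : IsEmpty {a : ℕ // c * a = m} := ⟨fun a => h ⟨a.1, a.2.symm⟩⟩
      simp
  ext m
  rw [mul_sub, mul_one, map_sub, coeff_mul_X_pow']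
  simp only [gf, coeff_mk, hcard, coeff_one]
  by_cases hm : c ≤ m
  · have hm0 : m ≠ 0 := by omega
    rw [if_pos hm, if_neg hm0]
    have : (c ∣ m) ↔ (c ∣ m - c) := by
      constructor
      · intro h
        exact Nat.dvd_sub h (dvd_refl c)
      · intro h
        have := Nat.dvd_add h (dvd_refl c)
        rwa [Nat.sub_add_cancel hm] at this
    by_cases hd : c ∣ m
    · rw [if_pos hd, if_pos (this.mp hd)]; ring
    · rw [if_neg hd, if_neg (fun h => hd (this.mpr h))]; ring
  · rw [if_neg hm]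
    by_cases hm0 : m = 0
    · subst hm0; simp
    · rw [if_neg hm0, if_neg]
      · ring
      · intro h
        exact hm (Nat.le_of_dvd (by omega) h)

lemma finFib_bool (c : ℕ) : FinFib (fun b : Bool => if b then c else 0) := by
  intro m
  infer_instance

lemma gf_bool (c : ℕ) (hc : 0 < c) : gf (fun b : Bool => if b then c else 0) = 1 + X ^ c := by
  ext m
  simp only [gf, coeff_mk, map_add, coeff_one, coeff_X_pow]
  rw [Nat.card_eq_fintype_card, Fintype.card_subtype]
  have : (Finset.univ : Finset Bool) = {true, false} := rfl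
  rw [this, Finset.filter_insert, Finset.filter_singleton]
  by_cases h0 : m = 0
  · subst h0
    have : c ≠ 0 := by omega
    simp [this, this.symm]
  · by_cases h1 : m = c
    · subst h1
      have h3 : (0 : ℕ) ≠ m := by omega
      simp [h0, h3]
    · have h3 : ¬ (0 : ℕ) = m := by omega
      have h4 : ¬ c = m := by omega
      simp [h0, h1, h3, h4]

lemma gf_congr {α β : Type} (f : α → ℕ) (g : β → ℕ) (e : α ≃ β) (h : ∀ a, g (e a) = f a) :
    gf f = gf g := by
  ext m
  simp only [gf, coeff_mk]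
  rw [Nat.card_congr (e.subtypeEquiv (p := fun a => f a = m) (q := fun b => g b = m) ?_)]
  intro a
  rw [h a]

end Pool.Agent.Y348.EE
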