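import Mathlib

set_option autoImplicit false

/-!
# Equivariant Ehrhart theory: basic definitions
-/

namespace Pool.Agent.Y348.EE

open PowerSeries
open scoped Pointwise

/-- The real point with the given integer coordinates. -/
def toReal {d : ℕ} (x : Fin d → ℤ) : Fin d → ℝ := fun i => (x i : ℝ)

/-- The lattice polytope in `ℝ^d` that is the convex hull of the finite set `V` of lattice points. -/
def polytope {d : ℕ} (V : Finset (Fin d → ℤ)) : Set (Fin d → ℝ) :=
  convexHull ℝ (toReal '' (V : Set (Fin d → ℤ)))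

/-- The permutation character of `G` on the lattice points of `mP`: the number of lattice points of
`mP` (for `P` the polytope of `V`) fixed by `g`, where `G` acts linearly through
`ρ : G → GL_d(ℤ)`. -/
noncomputable def chi {G : Type} [Group G] {d : ℕ} (ρ : G →* GL (Fin d) ℤ)
    (V : Finset (Fin d → ℤ)) (m : ℕ) (g : G) : ℕ :=
  Nat.card {x : Fin d → ℤ // toReal x ∈ (m : ℝ) • polytope V ∧
    (ρ g : Matrix (Fin d) (Fin d) ℤ).mulVec x = x}

/-- The value at `g` of the equivariant `H^*`-series: the power series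
`(∑ₘ χ_{mP}(g) tᵐ) (1 - t) det(I - t ρ(g))`. -/
noncomputable def Hstar {G : Type} [Group G] {d : ℕ} (ρ : G →* GL (Fin d) ℤ)
    (V : Finset (Fin d → ℤ)) (g : G) : PowerSeries ℂ :=
  PowerSeries.mk (fun m => (chi ρ V m g : ℂ)) * ((1 - X) *
    (1 - (X : PowerSeries ℂ) • (ρ g : Matrix (Fin d) (Fin d) ℤ).map
      (Int.castRingHom (PowerSeries ℂ))).det)

/-- The equivariant `H^*`-series is polynomial: only finitely many of the class functions `H^*_i`
are nonzero. -/
def IsPolynomial {G : Type} [Group G] {d : ℕ} (ρ : G →* GL (Fin d) ℤ)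
    (V : Finset (Fin d → ℤ)) : Prop :=
  {i : ℕ | ∃ g : G, coeff i (Hstar ρ V g) ≠ 0}.Finite

/-- The equivariant `H^*`-series is effective: every class function `H^*_i` is the character of a
(finite-dimensional complex) representation of `G`. -/
def IsEffective {G : Type} [Group G] {d : ℕ} (ρ : G →* GL (Fin d) ℤ)
    (V : Finset (Fin d → ℤ)) : Prop :=
  ∀ i : ℕ, ∃ W : FDRep ℂ G, ∀ g : G, W.character g = coeff i (Hstar ρ V g)

end Pool.Agent.Y348.EE
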