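import Mathlib
import Pool.Agent.Y348.EE.Defs

set_option autoImplicit false

/-!
# The polytope: free join of a unit square and a five-dimensional simplex
-/

namespace Pool.Agent.Y348.EE

open scoped Pointwise

/-- The ten vertices. Coordinates `0, 1` carry the unit square (at height `1` of coordinate `7`),
coordinates `2, …, 6` carry the five-dimensional simplex with vertices `0, e₁, e₂, e₃, e₄` and
`e₁ + e₂ + e₃ + e₄ + 2 e₅` (at height `0` of coordinate `7`). -/
def vert : Fin 10 → Fin 8 → ℤ :=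
  ![![0, 0, 0, 0, 0, 0, 0, 0],
    ![0, 0, 1, 0, 0, 0, 0, 0],
    ![0, 0, 0, 1, 0, 0, 0, 0],
    ![0, 0, 0, 0, 1, 0, 0, 0],
    ![0, 0, 0, 0, 0, 1, 0, 0],
    ![0, 0, 1, 1, 1, 1, 2, 0],
    ![0, 0, 0, 0, 0, 0, 0, 1],
    ![1, 0, 0, 0, 0, 0, 0, 1],
    ![0, 1, 0, 0, 0, 0, 0, 1],
    ![1, 1, 0, 0, 0, 0, 0, 1]]

/-- The finite set of vertices. -/
def V : Finset (Fin 8 → ℤ) := Finset.univ.image vert

/-- The inequalities describing the dilate `tP`. -/
structure Ineq (t : ℝ) (x : Fin 8 → ℝ) : Prop where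
  a0 : 0 ≤ x 0
  a1 : x 0 ≤ x 7
  b0 : 0 ≤ x 1
  b1 : x 1 ≤ x 7
  c0 : 0 ≤ x 6
  c2 : x 6 ≤ 2 * x 2
  c3 : x 6 ≤ 2 * x 3
  c4 : x 6 ≤ 2 * x 4
  c5 : x 6 ≤ 2 * x 5
  s : 2 * (x 2 + x 3 + x 4 + x 5) - 3 * x 6 ≤ 2 * (t - x 7)

lemma ineq_convex : Convex ℝ {x | Ineq 1 x} := by
  intro x hx y hy a b ha hb hab
  have hx' : Ineq 1 x := hx
  have hy' : Ineq 1 y := hy
  have key : ∀ u v : ℝ, 0 ≤ u → 0 ≤ v → 0 ≤ a * u + b * v := by
    intro u v hu hv
    positivity
  constructor <;> simp only [Pi.add_apply, Pi.smul_apply, smul_eq_mul]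
  · have := key _ _ hx'.a0 hy'.a0; linarith
  · have := key _ _ (sub_nonneg.mpr hx'.a1) (sub_nonneg.mpr hy'.a1); linarith
  · have := key _ _ hx'.b0 hy'.b0; linarith
  · have := key _ _ (sub_nonneg.mpr hx'.b1) (sub_nonneg.mpr hy'.b1); linarith
  · have := key _ _ hx'.c0 hy'.c0; linarith
  · have := key _ _ (sub_nonneg.mpr hx'.c2) (sub_nonneg.mpr hy'.c2); linarith
  · have := key _ _ (sub_nonneg.mpr hx'.c3) (sub_nonneg.mpr hy'.c3); linarith
  · have := key _ _ (sub_nonneg.mpr hx'.c4) (sub_nonneg.mpr hy'.c4); linarith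
  · have := key _ _ (sub_nonneg.mpr hx'.c5) (sub_nonneg.mpr hy'.c5); linarith
  · have h := key _ _ (sub_nonneg.mpr hx'.s) (sub_nonneg.mpr hy'.s)
    have hb' : b = 1 - a := by linarith
    subst hb'
    nlinarith [h]

lemma vert_ineq (i : Fin 10) : Ineq 1 (toReal (vert i)) := by
  fin_cases i <;> constructor <;> simp [toReal, vert] <;> norm_num

lemma vert_mem (i : Fin 10) : toReal (vert i) ∈ polytope V := by
  apply subset_convexHull
  exact ⟨vert i, by simp [V], rfl⟩

lemma comb_mem (w : Fin 10 → ℝ) (h0 : ∀ i, 0 ≤ w i) (h1 : ∑ i, w i = 1) :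
    (∑ i, w i • toReal (vert i)) ∈ polytope V :=
  (convex_convexHull ℝ _).sum_mem (fun i _ => h0 i) h1 (fun i _ => vert_mem i)

lemma mem_polytope_iff (x : Fin 8 → ℝ) : x ∈ polytope V ↔ Ineq 1 x := by
  constructor
  · intro hx
    have : polytope V ⊆ {x | Ineq 1 x} := by
      apply convexHull_min _ ineq_convex
      rintro _ ⟨v, hv, rfl⟩
      simp only [V, Finset.coe_image, Finset.coe_univ, Set.image_univ, Set.mem_range] at hv
      obtain ⟨i, rfl⟩ := hv
      exact vert_ineq i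
    exact this hx
  · intro h
    have hw : 0 ≤ 1 - x 7 - (x 2 + x 3 + x 4 + x 5) + 3 / 2 * x 6 := by
      have := h.s; linarith
    rcases le_total (x 0) (x 1) with hle | hle
    · have hc := comb_mem ![1 - x 7 - (x 2 + x 3 + x 4 + x 5) + 3 / 2 * x 6, x 2 - x 6 / 2,
        x 3 - x 6 / 2, x 4 - x 6 / 2, x 5 - x 6 / 2, x 6 / 2, x 7 - x 1, 0, x 1 - x 0, x 0] ?_ ?_
      · have he : (∑ i, (![1 - x 7 - (x 2 + x 3 + x 4 + x 5) + 3 / 2 * x 6, x 2 - x 6 / 2,
            x 3 - x 6 / 2, x 4 - x 6 / 2, x 5 - x 6 / 2, x 6 / 2, x 7 - x 1, 0, x 1 - x 0, x 0] :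
            Fin 10 → ℝ) i • toReal (vert i)) = x := by
          ext j
          simp only [Fin.sum_univ_succ, Finset.univ_unique, Fin.default_eq_zero]
          fin_cases j <;> simp [toReal, vert, Fin.succ]
        rwa [he] at hc
      · intro i
        have := h.a0
        have := h.b0
        have := h.b1
        have := h.c0
        have := h.c2
        have := h.c3
        have := h.c4
        have := h.c5
        fin_cases i <;> simp <;> linarith
      · simp only [Fin.sum_univ_succ, Finset.univ_unique, Fin.default_eq_zero]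
        simp [Fin.succ]
        ring
    · have hc := comb_mem ![1 - x 7 - (x 2 + x 3 + x 4 + x 5) + 3 / 2 * x 6, x 2 - x 6 / 2,
        x 3 - x 6 / 2, x 4 - x 6 / 2, x 5 - x 6 / 2, x 6 / 2, x 7 - x 0, x 0 - x 1, 0, x 1] ?_ ?_
      · have he : (∑ i, (![1 - x 7 - (x 2 + x 3 + x 4 + x 5) + 3 / 2 * x 6, x 2 - x 6 / 2,
            x 3 - x 6 / 2, x 4 - x 6 / 2, x 5 - x 6 / 2, x 6 / 2, x 7 - x 0, x 0 - x 1, 0, x 1] :
            Fin 10 → ℝ) i • toReal (vert i)) = x := by
          ext j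
          simp only [Fin.sum_univ_succ, Finset.univ_unique, Fin.default_eq_zero]
          fin_cases j <;> simp [toReal, vert, Fin.succ]
        rwa [he] at hc
      · intro i
        have := h.a1
        have := h.b0
        have := h.b1
        have := h.c0
        have := h.c2
        have := h.c3
        have := h.c4
        have := h.c5
        fin_cases i <;> simp <;> linarith
      · simp only [Fin.sum_univ_succ, Finset.univ_unique, Fin.default_eq_zero]
        simp [Fin.succ]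
        ring

lemma mem_smul_iff (t : ℝ) (ht : 0 ≤ t) (x : Fin 8 → ℝ) :
    x ∈ t • polytope V ↔ Ineq t x := by
  rcases ht.eq_or_lt with rfl | hpos
  · constructor
    · rintro ⟨p, _, rfl⟩
      constructor <;> simp
    · intro h
      obtain ⟨h1, h2, h3, h4, h5, h6, h7, h8, h9, h10⟩ := h
      refine ⟨toReal (vert 0), vert_mem 0, ?_⟩
      ext j
      fin_cases j <;> simp <;> linarith
  · rw [Set.mem_smul_set_iff_inv_smul_mem₀ hpos.ne', mem_polytope_iff]
    have hi : 0 < t⁻¹ := inv_pos.mpr hpos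
    have htt : t * t⁻¹ = 1 := mul_inv_cancel₀ hpos.ne'
    constructor
    · intro h
      obtain ⟨h1, h2, h3, h4, h5, h6, h7, h8, h9, h10⟩ := h
      simp only [Pi.smul_apply, smul_eq_mul] at h1 h2 h3 h4 h5 h6 h7 h8 h9 h10
      refine ⟨?_, ?_, ?_, ?_, ?_, ?_, ?_, ?_, ?_, ?_⟩
      · exact (mul_nonneg_iff_of_pos_left hi).mp h1
      · exact (mul_le_mul_iff_right₀ hi).mp h2
      · exact (mul_nonneg_iff_of_pos_left hi).mp h3
      · exact (mul_le_mul_iff_right₀ hi).mp h4
      · exact (mul_nonneg_iff_of_pos_left hi).mp h5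
      · exact (mul_le_mul_iff_right₀ hi).mp (by linarith)
      · exact (mul_le_mul_iff_right₀ hi).mp (by linarith)
      · exact (mul_le_mul_iff_right₀ hi).mp (by linarith)
      · exact (mul_le_mul_iff_right₀ hi).mp (by linarith)
      · refine (mul_le_mul_iff_right₀ hi).mp ?_
        have e : t⁻¹ * (2 * (t - x 7)) = 2 * (1 - t⁻¹ * x 7) := by
          linear_combination 2 * htt
        rw [e]
        linarith
    · intro h
      obtain ⟨h1, h2, h3, h4, h5, h6, h7, h8, h9, h10⟩ := h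
      have k : ∀ u v : ℝ, u ≤ v → t⁻¹ * u ≤ t⁻¹ * v :=
        fun u v huv => mul_le_mul_of_nonneg_left huv hi.le
      constructor <;> simp only [Pi.smul_apply, smul_eq_mul]
      · positivity
      · exact k _ _ h2
      · positivity
      · exact k _ _ h4
      · positivity
      · linarith [k _ _ h6]
      · linarith [k _ _ h7]
      · linarith [k _ _ h8]
      · linarith [k _ _ h9]
      · have e : t⁻¹ * (2 * (t - x 7)) = 2 * (1 - t⁻¹ * x 7) := by
          linear_combination 2 * htt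
        rw [← e]
        linarith [k _ _ h10]

end Pool.Agent.Y348.EE
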