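import Mathlib
import Pool.Agent.Y348.EE.Geom
import Pool.Agent.Y348.EE.GF

set_option autoImplicit false

/-!
# The action of the group of order two and the lattice point counts
-/

namespace Pool.Agent.Y348.EE

open scoped Pointwise
open PowerSeries

/-- The matrix of `u ∈ {1, -1}`: the identity, and the reflection `x₀ ↦ x₇ - x₀`. -/
def A (u : ℤˣ) : Matrix (Fin 8) (Fin 8) ℤ := fun i j =>
  if i = j then (if i = 0 then (u : ℤ) else 1) else if i = 0 ∧ j = 7 ∧ u = -1 then 1 else 0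

lemma A_one : A 1 = 1 := by decide

lemma A_neg_mul : A (-1) * A (-1) = 1 := by decide

lemma A_mul_self (u : ℤˣ) : A u * A u = 1 := by
  rcases Int.units_eq_one_or u with rfl | rfl
  · rw [A_one, one_mul]
  · exact A_neg_mul

/-- The action of the group `{1, -1}` on `ℤ^8`. -/
def ρ : ℤˣ →* GL (Fin 8) ℤ where
  toFun u := ⟨A u, A u, A_mul_self u, A_mul_self u⟩
  map_one' := by
    ext1
    exact A_one
  map_mul' u v := by
    ext1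
    change A (u * v) = A u * A v
    rcases Int.units_eq_one_or u with rfl | rfl <;> rcases Int.units_eq_one_or v with rfl | rfl
    · rw [one_mul, A_one, one_mul]
    · rw [one_mul, A_one, one_mul]
    · rw [mul_one, A_one, mul_one]
    · rw [A_neg_mul]
      exact A_one

lemma ρ_coe (u : ℤˣ) : ((ρ u : GL (Fin 8) ℤ) : Matrix (Fin 8) (Fin 8) ℤ) = A u := rfl

lemma mulVec_one (x : Fin 8 → ℤ) :
    ((ρ 1 : GL (Fin 8) ℤ) : Matrix (Fin 8) (Fin 8) ℤ).mulVec x = x := by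
  rw [ρ_coe, A_one, Matrix.one_mulVec]

lemma mulVec_neg (x : Fin 8 → ℤ) :
    ((ρ (-1) : GL (Fin 8) ℤ) : Matrix (Fin 8) (Fin 8) ℤ).mulVec x = x ↔ x 7 = 2 * x 0 := by
  rw [ρ_coe]
  constructor
  · intro h
    have h0 := congrFun h 0
    simp [Matrix.mulVec, dotProduct, Fin.sum_univ_eight, A] at h0
    omega
  · intro h
    ext i
    fin_cases i <;> simp [Matrix.mulVec, dotProduct, Fin.sum_univ_eight, A]
    omega

/-- The integral form of the inequalities. -/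
lemma toReal_mem_iff (m : ℕ) (x : Fin 8 → ℤ) : toReal x ∈ (m : ℝ) • polytope V ↔
    (0 ≤ x 0 ∧ x 0 ≤ x 7 ∧ 0 ≤ x 1 ∧ x 1 ≤ x 7 ∧ 0 ≤ x 6 ∧ x 6 ≤ 2 * x 2 ∧ x 6 ≤ 2 * x 3 ∧
      x 6 ≤ 2 * x 4 ∧ x 6 ≤ 2 * x 5 ∧
      2 * (x 2 + x 3 + x 4 + x 5) - 3 * x 6 ≤ 2 * ((m : ℤ) - x 7)) := by
  rw [mem_smul_iff _ (by positivity)]
  constructor
  · rintro ⟨h1, h2, h3, h4, h5, h6, h7, h8, h9, h10⟩
    simp only [toReal] at h1 h2 h3 h4 h5 h6 h7 h8 h9 h10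
    exact ⟨by exact_mod_cast h1, by exact_mod_cast h2, by exact_mod_cast h3,
      by exact_mod_cast h4, by exact_mod_cast h5, by exact_mod_cast h6, by exact_mod_cast h7,
      by exact_mod_cast h8, by exact_mod_cast h9, by exact_mod_cast h10⟩
  · rintro ⟨h1, h2, h3, h4, h5, h6, h7, h8, h9, h10⟩
    exact ⟨by simp only [toReal]; exact_mod_cast h1, by simp only [toReal]; exact_mod_cast h2,
      by simp only [toReal]; exact_mod_cast h3, by simp only [toReal]; exact_mod_cast h4,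
      by simp only [toReal]; exact_mod_cast h5, by simp only [toReal]; exact_mod_cast h6,
      by simp only [toReal]; exact_mod_cast h7, by simp only [toReal]; exact_mod_cast h8,
      by simp only [toReal]; exact_mod_cast h9, by simp only [toReal]; exact_mod_cast h10⟩

/-- The grading by `c` times the value. -/
abbrev gN (c : ℕ) : ℕ → ℕ := fun n => c * n

/-- The grading of `Bool` with `true` in degree `c`. -/
abbrev gB (c : ℕ) : Bool → ℕ := fun b => if b then c else 0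

/-- Parameters of the simplex part. -/
abbrev UR : Type := Bool × ℕ × ℕ × ℕ × ℕ × ℕ × ℕ

/-- Degree on the simplex part. -/
abbrev degR : UR → ℕ := fun r =>
  gB 3 r.1 + (gN 1 r.2.1 + (gN 1 r.2.2.1 + (gN 1 r.2.2.2.1 + (gN 1 r.2.2.2.2.1 +
    (gN 1 r.2.2.2.2.2.1 + gN 1 r.2.2.2.2.2.2)))))

/-- Parameters of the square part. -/
abbrev UQ : Type := Bool × ℕ × ℕ × ℕ

/-- Degree on the square part. -/
abbrev degQ : UQ → ℕ := fun r => gB 1 r.1 + (gN 1 r.2.1 + (gN 1 r.2.2.1 + gN 1 r.2.2.2))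

/-- Parameters of the fixed points of the square part. -/
abbrev US : Type := Bool × ℕ × ℕ

/-- Degree on the fixed points of the square part. -/
abbrev degS : US → ℕ := fun r => gB 2 r.1 + (gN 2 r.2.1 + gN 2 r.2.2)

lemma bool_cases (b : Bool) : b = true ∨ b = false := by cases b <;> simp

lemma card_eq {α β : Type} (P : α → Prop) (Q : β → Prop) (φ : β → α)
    (h1 : ∀ b, Q b → P (φ b)) (h2 : ∀ b b', Q b → Q b' → φ b = φ b' → b = b')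
    (h3 : ∀ a, P a → ∃ b, Q b ∧ φ b = a) : Nat.card {a // P a} = Nat.card {b // Q b} := by
  symm
  apply Nat.card_congr
  refine Equiv.ofBijective (fun b => ⟨φ b.1, h1 b.1 b.2⟩) ⟨?_, ?_⟩
  · rintro ⟨b, hb⟩ ⟨b', hb'⟩ h
    have h' := congrArg Subtype.val h
    exact Subtype.ext (h2 b b' hb hb' h')
  · rintro ⟨a, ha⟩
    obtain ⟨b, hb, rfl⟩ := h3 a ha
    exact ⟨⟨b, hb⟩, rfl⟩

/-- The integral inequalities. -/
structure IneqZ (m : ℕ) (x : Fin 8 → ℤ) : Prop where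
  a0 : 0 ≤ x 0
  a1 : x 0 ≤ x 7
  b0 : 0 ≤ x 1
  b1 : x 1 ≤ x 7
  c0 : 0 ≤ x 6
  c2 : x 6 ≤ 2 * x 2
  c3 : x 6 ≤ 2 * x 3
  c4 : x 6 ≤ 2 * x 4
  c5 : x 6 ≤ 2 * x 5
  s : 2 * (x 2 + x 3 + x 4 + x 5) - 3 * x 6 ≤ 2 * ((m : ℤ) - x 7)

lemma toReal_mem_iff' (m : ℕ) (x : Fin 8 → ℤ) :
    toReal x ∈ (m : ℝ) • polytope V ↔ IneqZ m x := by
  rw [toReal_mem_iff]
  constructor
  · rintro ⟨h1, h2, h3, h4, h5, h6, h7, h8, h9, h10⟩
    exact ⟨h1, h2, h3, h4, h5, h6, h7, h8, h9, h10⟩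
  · rintro ⟨h1, h2, h3, h4, h5, h6, h7, h8, h9, h10⟩
    exact ⟨h1, h2, h3, h4, h5, h6, h7, h8, h9, h10⟩

/-- `1` if true. -/
def eps (b : Bool) : ℤ := if b then 1 else 0

/-- The point with given coordinates. -/
def pt (x0 x1 x2 x3 x4 x5 x6 x7 : ℤ) : Fin 8 → ℤ := ![x0, x1, x2, x3, x4, x5, x6, x7]

lemma pt_inj {x0 x1 x2 x3 x4 x5 x6 x7 y0 y1 y2 y3 y4 y5 y6 y7 : ℤ}
    (h : pt x0 x1 x2 x3 x4 x5 x6 x7 = pt y0 y1 y2 y3 y4 y5 y6 y7) :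
    x0 = y0 ∧ x1 = y1 ∧ x2 = y2 ∧ x3 = y3 ∧ x4 = y4 ∧ x5 = y5 ∧ x6 = y6 ∧ x7 = y7 :=
  ⟨congrFun h 0, congrFun h 1, congrFun h 2, congrFun h 3, congrFun h 4, congrFun h 5,
    congrFun h 6, congrFun h 7⟩

lemma pt_eta (x : Fin 8 → ℤ) {x0 x1 x2 x3 x4 x5 x6 x7 : ℤ} (h0 : x0 = x 0) (h1 : x1 = x 1)
    (h2 : x2 = x 2) (h3 : x3 = x 3) (h4 : x4 = x 4) (h5 : x5 = x 5) (h6 : x6 = x 6)
    (h7 : x7 = x 7) : pt x0 x1 x2 x3 x4 x5 x6 x7 = x := by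
  subst h0 h1 h2 h3 h4 h5 h6 h7
  ext i
  fin_cases i <;> rfl

/-- Coordinate `0` from the square parameters. -/
def q0 (b : Bool) (p q : ℕ) : ℤ := if b then (p : ℤ) + q + 1 else p

/-- Coordinate `1` from the square parameters. -/
def q1 (b : Bool) (p q : ℕ) : ℤ := if b then (p : ℤ) else (p : ℤ) + q

/-- The parametrisation of the lattice points of the cone. -/
def phi (u : UQ × UR) : Fin 8 → ℤ :=
  pt (q0 u.1.1 u.1.2.1 u.1.2.2.1) (q1 u.1.1 u.1.2.1 u.1.2.2.1)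
    ((u.2.2.2.1 : ℤ) + u.2.2.2.2.2.2.2 + eps u.2.1)
    ((u.2.2.2.2.1 : ℤ) + u.2.2.2.2.2.2.2 + eps u.2.1)
    ((u.2.2.2.2.2.1 : ℤ) + u.2.2.2.2.2.2.2 + eps u.2.1)
    ((u.2.2.2.2.2.2.1 : ℤ) + u.2.2.2.2.2.2.2 + eps u.2.1)
    (2 * (u.2.2.2.2.2.2.2 : ℤ) + eps u.2.1)
    ((u.1.2.1 : ℤ) + u.1.2.2.1 + u.1.2.2.2 + eps u.1.1)

/-- Coordinate `1` of the fixed points. -/
def q1' (b : Bool) (p q : ℕ) : ℤ := if b then 2 * (p : ℤ) + q + 2 else p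

/-- The parametrisation of the fixed lattice points of the cone. -/
def phi' (u : US × UR) : Fin 8 → ℤ :=
  pt ((u.1.2.1 : ℤ) + u.1.2.2 + eps u.1.1) (q1' u.1.1 u.1.2.1 u.1.2.2)
    ((u.2.2.2.1 : ℤ) + u.2.2.2.2.2.2.2 + eps u.2.1)
    ((u.2.2.2.2.1 : ℤ) + u.2.2.2.2.2.2.2 + eps u.2.1)
    ((u.2.2.2.2.2.1 : ℤ) + u.2.2.2.2.2.2.2 + eps u.2.1)
    ((u.2.2.2.2.2.2.1 : ℤ) + u.2.2.2.2.2.2.2 + eps u.2.1)
    (2 * (u.2.2.2.2.2.2.2 : ℤ) + eps u.2.1)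
    (2 * ((u.1.2.1 : ℤ) + u.1.2.2 + eps u.1.1))

/-- Solving for the simplex parameters. -/
lemma solveR (m : ℕ) (x : Fin 8 → ℤ) (hx : IneqZ m x) : ∃ (c : Bool) (n0 n1 n2 n3 n4 n5 : ℕ),
    x 2 = (n1 : ℤ) + n5 + eps c ∧ x 3 = (n2 : ℤ) + n5 + eps c ∧
    x 4 = (n3 : ℤ) + n5 + eps c ∧ x 5 = (n4 : ℤ) + n5 + eps c ∧
    x 6 = 2 * (n5 : ℤ) + eps c ∧
    x 7 + 3 * eps c + n0 + n1 + n2 + n3 + n4 + n5 = m := by
  obtain ⟨h1, h2, h3, h4, h5, h6, h7, h8, h9, h10⟩ := hx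
  obtain ⟨k, hk | hk⟩ := Int.even_or_odd' (x 6)
  · refine ⟨false, ((m : ℤ) - x 7 - (x 2 - k) - (x 3 - k) - (x 4 - k) - (x 5 - k) - k).toNat,
        (x 2 - k).toNat, (x 3 - k).toNat, (x 4 - k).toNat, (x 5 - k).toNat, k.toNat,
        ?_, ?_, ?_, ?_, ?_, ?_⟩ <;> simp only [eps, Bool.false_eq_true, if_false] <;> omega
  · refine ⟨true, ((m : ℤ) - x 7 - (x 2 - k) - (x 3 - k) - (x 4 - k) - (x 5 - k) - k + 1).toNat,
        (x 2 - k - 1).toNat, (x 3 - k - 1).toNat, (x 4 - k - 1).toNat, (x 5 - k - 1).toNat,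
        k.toNat, ?_, ?_, ?_, ?_, ?_, ?_⟩ <;> simp only [eps, if_true] <;> omega

/-- Solving for the square parameters. -/
lemma solveQ (m : ℕ) (x : Fin 8 → ℤ) (hx : IneqZ m x) : ∃ (b : Bool) (p q r : ℕ),
    x 0 = q0 b p q ∧ x 1 = q1 b p q ∧ x 7 = (p : ℤ) + q + r + eps b := by
  obtain ⟨h1, h2, h3, h4, -, -, -, -, -, -⟩ := hx
  rcases le_or_gt (x 0) (x 1) with hle | hlt
  · refine ⟨false, (x 0).toNat, (x 1 - x 0).toNat, (x 7 - x 1).toNat, ?_, ?_, ?_⟩ <;>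
      simp only [q0, q1, eps, Bool.false_eq_true, if_false] <;> omega
  · refine ⟨true, (x 1).toNat, (x 0 - x 1 - 1).toNat, (x 7 - x 0).toNat, ?_, ?_, ?_⟩ <;>
      simp only [q0, q1, eps, if_true] <;> omega

/-- Solving for the square parameters of the fixed points. -/
lemma solveS (m : ℕ) (x : Fin 8 → ℤ) (hx : IneqZ m x) (hf : x 7 = 2 * x 0) :
    ∃ (b : Bool) (p q : ℕ), x 0 = (p : ℤ) + q + eps b ∧ x 1 = q1' b p q := by
  obtain ⟨h1, h2, h3, h4, -, -, -, -, -, -⟩ := hx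
  rcases le_or_gt (x 1) (x 0) with hle | hlt
  · refine ⟨false, (x 1).toNat, (x 0 - x 1).toNat, ?_, ?_⟩ <;>
      simp only [q1', eps, Bool.false_eq_true, if_false] <;> omega
  · refine ⟨true, (x 1 - x 0 - 1).toNat, (x 7 - x 1).toNat, ?_, ?_⟩ <;>
      simp only [q1', eps, if_true] <;> omega

lemma gB_cast1 (b : Bool) : ((gB 1 b : ℕ) : ℤ) = eps b := by
  cases b <;> rfl

lemma gB_cast2 (b : Bool) : ((gB 2 b : ℕ) : ℤ) = 2 * eps b := by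
  cases b <;> rfl

lemma gB_cast3 (b : Bool) : ((gB 3 b : ℕ) : ℤ) = 3 * eps b := by
  cases b <;> rfl

lemma uniqR {c c' : Bool} {n1 n2 n3 n4 n5 n1' n2' n3' n4' n5' : ℕ}
    (h2 : (n1 : ℤ) + n5 + eps c = n1' + n5' + eps c')
    (h3 : (n2 : ℤ) + n5 + eps c = n2' + n5' + eps c')
    (h4 : (n3 : ℤ) + n5 + eps c = n3' + n5' + eps c')
    (h5 : (n4 : ℤ) + n5 + eps c = n4' + n5' + eps c')
    (h6 : 2 * (n5 : ℤ) + eps c = 2 * n5' + eps c') :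
    c = c' ∧ n1 = n1' ∧ n2 = n2' ∧ n3 = n3' ∧ n4 = n4' ∧ n5 = n5' := by
  cases c <;> cases c' <;>
    simp only [eps, Bool.false_eq_true, if_false, if_true] at h2 h3 h4 h5 h6 <;>
    refine ⟨?_, ?_, ?_, ?_, ?_, ?_⟩ <;> first | rfl | omega

lemma uniqQ {b b' : Bool} {p q r p' q' r' : ℕ} (h0 : q0 b p q = q0 b' p' q')
    (h1 : q1 b p q = q1 b' p' q') (h7 : (p : ℤ) + q + r + eps b = p' + q' + r' + eps b') :
    b = b' ∧ p = p' ∧ q = q' ∧ r = r' := by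
  cases b <;> cases b' <;>
    simp only [q0, q1, eps, Bool.false_eq_true, if_false, if_true] at h0 h1 h7 <;>
    refine ⟨?_, ?_, ?_, ?_⟩ <;> first | rfl | omega

lemma uniqS {b b' : Bool} {p q p' q' : ℕ} (h0 : (p : ℤ) + q + eps b = p' + q' + eps b')
    (h1 : q1' b p q = q1' b' p' q') : b = b' ∧ p = p' ∧ q = q' := by
  cases b <;> cases b' <;>
    simp only [q1', eps, Bool.false_eq_true, if_false, if_true] at h0 h1 <;>
    refine ⟨?_, ?_, ?_⟩ <;> first | rfl | omega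

lemma deg_cast1 (b : Bool) (p q r : ℕ) (c : Bool) (n0 n1 n2 n3 n4 n5 m : ℕ) :
    degQ (b, p, q, r) + degR (c, n0, n1, n2, n3, n4, n5) = m ↔
    (p : ℤ) + q + r + eps b + 3 * eps c + n0 + n1 + n2 + n3 + n4 + n5 = m := by
  have h1 := gB_cast1 b
  have h3 := gB_cast3 c
  change gB 1 b + (1 * p + (1 * q + 1 * r)) +
    (gB 3 c + (1 * n0 + (1 * n1 + (1 * n2 + (1 * n3 + (1 * n4 + 1 * n5)))))) = m ↔ _
  generalize gB 1 b = B at h1 ⊢
  generalize gB 3 c = C at h3 ⊢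
  omega

lemma deg_castS (b : Bool) (p q : ℕ) (c : Bool) (n0 n1 n2 n3 n4 n5 m : ℕ) :
    degS (b, p, q) + degR (c, n0, n1, n2, n3, n4, n5) = m ↔
    2 * ((p : ℤ) + q + eps b) + 3 * eps c + n0 + n1 + n2 + n3 + n4 + n5 = m := by
  have h1 := gB_cast2 b
  have h3 := gB_cast3 c
  change gB 2 b + (2 * p + 2 * q) +
    (gB 3 c + (1 * n0 + (1 * n1 + (1 * n2 + (1 * n3 + (1 * n4 + 1 * n5)))))) = m ↔ _
  generalize gB 2 b = B at h1 ⊢
  generalize gB 3 c = C at h3 ⊢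
  omega

lemma eps_nonneg (b : Bool) : 0 ≤ eps b := by cases b <;> simp [eps]

/-- The lattice points of `mP`. -/
lemma card_one (m : ℕ) : chi ρ V m 1 = Nat.card {u : UQ × UR // degQ u.1 + degR u.2 = m} := by
  unfold chi
  refine card_eq _ _ phi ?_ ?_ ?_
  · rintro ⟨⟨b, p, q, r⟩, ⟨c, n0, n1, n2, n3, n4, n5⟩⟩ hu
    rw [deg_cast1] at hu
    refine ⟨?_, mulVec_one _⟩
    rw [toReal_mem_iff']
    have e1 := eps_nonneg b
    have e2 := eps_nonneg c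
    have hq0 : 0 ≤ q0 b p q ∧ q0 b p q ≤ (p : ℤ) + q + r + eps b := by
      cases b <;> simp only [q0, eps, Bool.false_eq_true, if_false, if_true] <;> omega
    have hq1 : 0 ≤ q1 b p q ∧ q1 b p q ≤ (p : ℤ) + q + r + eps b := by
      cases b <;> simp only [q1, eps, Bool.false_eq_true, if_false, if_true] <;> omega
    refine ⟨hq0.1, hq0.2, hq1.1, hq1.2, ?_, ?_, ?_, ?_, ?_, ?_⟩
    · change 0 ≤ 2 * (n5 : ℤ) + eps c
      omega
    · change 2 * (n5 : ℤ) + eps c ≤ 2 * ((n1 : ℤ) + n5 + eps c)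
      omega
    · change 2 * (n5 : ℤ) + eps c ≤ 2 * ((n2 : ℤ) + n5 + eps c)
      omega
    · change 2 * (n5 : ℤ) + eps c ≤ 2 * ((n3 : ℤ) + n5 + eps c)
      omega
    · change 2 * (n5 : ℤ) + eps c ≤ 2 * ((n4 : ℤ) + n5 + eps c)
      omega
    · change 2 * (((n1 : ℤ) + n5 + eps c) + ((n2 : ℤ) + n5 + eps c) + ((n3 : ℤ) + n5 + eps c) +
        ((n4 : ℤ) + n5 + eps c)) - 3 * (2 * (n5 : ℤ) + eps c) ≤
        2 * ((m : ℤ) - ((p : ℤ) + q + r + eps b))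
      omega
  · rintro ⟨⟨b, p, q, r⟩, ⟨c, n0, n1, n2, n3, n4, n5⟩⟩
      ⟨⟨b', p', q', r'⟩, ⟨c', n0', n1', n2', n3', n4', n5'⟩⟩ hu hu' h
    rw [deg_cast1] at hu hu'
    dsimp only [phi] at h
    obtain ⟨h0, h1, h2, h3, h4, h5, h6, h7⟩ := pt_inj h
    obtain ⟨rfl, rfl, rfl, rfl⟩ := uniqQ h0 h1 h7
    obtain ⟨rfl, rfl, rfl, rfl, rfl, rfl⟩ := uniqR h2 h3 h4 h5 h6
    have : n0 = n0' := by omega
    subst this
    rfl
  · rintro x ⟨hx, -⟩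
    rw [toReal_mem_iff'] at hx
    obtain ⟨c, n0, n1, n2, n3, n4, n5, h2, h3, h4, h5, h6, h⟩ := solveR m x hx
    obtain ⟨b, p, q, r, h0, h1, h7⟩ := solveQ m x hx
    refine ⟨⟨⟨b, p, q, r⟩, ⟨c, n0, n1, n2, n3, n4, n5⟩⟩, ?_, ?_⟩
    · rw [deg_cast1, ← h7]
      exact h
    · exact pt_eta x h0.symm h1.symm h2.symm h3.symm h4.symm h5.symm h6.symm h7.symm

/-- The lattice points of `mP` fixed by the reflection. -/
lemma card_neg (m : ℕ) : chi ρ V m (-1) = Nat.card {u : US × UR // degS u.1 + degR u.2 = m} := by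
  unfold chi
  refine card_eq _ _ phi' ?_ ?_ ?_
  · rintro ⟨⟨b, p, q⟩, ⟨c, n0, n1, n2, n3, n4, n5⟩⟩ hu
    rw [deg_castS] at hu
    refine ⟨?_, (mulVec_neg _).mpr rfl⟩
    rw [toReal_mem_iff']
    have e1 := eps_nonneg b
    have e2 := eps_nonneg c
    have hq1 : 0 ≤ q1' b p q ∧ q1' b p q ≤ 2 * ((p : ℤ) + q + eps b) := by
      cases b <;> simp only [q1', eps, Bool.false_eq_true, if_false, if_true] <;> omega
    refine ⟨?_, ?_, hq1.1, hq1.2, ?_, ?_, ?_, ?_, ?_, ?_⟩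
    · change 0 ≤ (p : ℤ) + q + eps b
      omega
    · change (p : ℤ) + q + eps b ≤ 2 * ((p : ℤ) + q + eps b)
      omega
    · change 0 ≤ 2 * (n5 : ℤ) + eps c
      omega
    · change 2 * (n5 : ℤ) + eps c ≤ 2 * ((n1 : ℤ) + n5 + eps c)
      omega
    · change 2 * (n5 : ℤ) + eps c ≤ 2 * ((n2 : ℤ) + n5 + eps c)
      omega
    · change 2 * (n5 : ℤ) + eps c ≤ 2 * ((n3 : ℤ) + n5 + eps c)
      omega
    · change 2 * (n5 : ℤ) + eps c ≤ 2 * ((n4 : ℤ) + n5 + eps c)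
      omega
    · change 2 * (((n1 : ℤ) + n5 + eps c) + ((n2 : ℤ) + n5 + eps c) + ((n3 : ℤ) + n5 + eps c) +
        ((n4 : ℤ) + n5 + eps c)) - 3 * (2 * (n5 : ℤ) + eps c) ≤
        2 * ((m : ℤ) - (2 * ((p : ℤ) + q + eps b)))
      omega
  · rintro ⟨⟨b, p, q⟩, ⟨c, n0, n1, n2, n3, n4, n5⟩⟩
      ⟨⟨b', p', q'⟩, ⟨c', n0', n1', n2', n3', n4', n5'⟩⟩ hu hu' h
    rw [deg_castS] at hu hu'
    dsimp only [phi'] at h
    obtain ⟨h0, h1, h2, h3, h4, h5, h6, h7⟩ := pt_inj h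
    obtain ⟨rfl, rfl, rfl⟩ := uniqS h0 h1
    obtain ⟨rfl, rfl, rfl, rfl, rfl, rfl⟩ := uniqR h2 h3 h4 h5 h6
    have : n0 = n0' := by omega
    subst this
    rfl
  · rintro x ⟨hx, hf⟩
    rw [toReal_mem_iff'] at hx
    rw [mulVec_neg] at hf
    obtain ⟨c, n0, n1, n2, n3, n4, n5, h2, h3, h4, h5, h6, h⟩ := solveR m x hx
    obtain ⟨b, p, q, h0, h1⟩ := solveS m x hx hf
    refine ⟨⟨⟨b, p, q⟩, ⟨c, n0, n1, n2, n3, n4, n5⟩⟩, ?_, ?_⟩
    · rw [deg_castS, ← h0, ← hf]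
      exact h
    · exact pt_eta x h0.symm h1.symm h2.symm h3.symm h4.symm h5.symm h6.symm
        (by rw [hf, h0])

end Pool.Agent.Y348.EE
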