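import Mathlib
import Pool.Agent.Y348.EE.Count

set_option autoImplicit false

/-!
# The counterexample
-/

namespace Pool.Agent.Y348.EE

open scoped Pointwise
open PowerSeries

/-- `1 / (1 - X)`. -/
noncomputable abbrev g1 : PowerSeries ℂ := gf (gN 1)

lemma g1_mul : g1 * (1 - X) = 1 := by
  have := gf_mul 1 one_pos
  rwa [pow_one] at this

lemma g2_mul : gf (gN 2) * (1 - X ^ 2) = 1 := gf_mul 2 two_pos

lemma fN1 : FinFib (gN 1) := finFib_mul 1 one_pos
lemma fN2 : FinFib (gN 2) := finFib_mul 2 two_pos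

lemma gf_degR : gf degR = (1 + X ^ 3) * (g1 * (g1 * (g1 * (g1 * (g1 * g1))))) := by
  have f2 := fN1.prod fN1
  have f3 := fN1.prod f2
  have f4 := fN1.prod f3
  have f5 := fN1.prod f4
  have f6 := fN1.prod f5
  have e2 := gf_prod fN1 fN1
  have e3 := gf_prod fN1 f2
  have e4 := gf_prod fN1 f3
  have e5 := gf_prod fN1 f4
  have e6 := gf_prod fN1 f5
  have e7 := gf_prod (finFib_bool 3) f6
  rw [gf_bool 3 (by norm_num), e6, e5, e4, e3, e2] at e7
  exact e7

lemma finFib_degR : FinFib degR :=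
  (finFib_bool 3).prod (fN1.prod (fN1.prod (fN1.prod (fN1.prod (fN1.prod fN1)))))

lemma gf_degQ : gf degQ = (1 + X ^ 1) * (g1 * (g1 * g1)) := by
  have f2 := fN1.prod fN1
  have f3 := fN1.prod f2
  have e2 := gf_prod fN1 fN1
  have e3 := gf_prod fN1 f2
  have e7 := gf_prod (finFib_bool 1) f3
  rw [gf_bool 1 (by norm_num), e3, e2] at e7
  exact e7

lemma finFib_degQ : FinFib degQ := (finFib_bool 1).prod (fN1.prod (fN1.prod fN1))

lemma gf_degS : gf degS = (1 + X ^ 2) * (gf (gN 2) * gf (gN 2)) := by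
  have f2 := fN2.prod fN2
  have e2 := gf_prod fN2 fN2
  have e7 := gf_prod (finFib_bool 2) f2
  rw [gf_bool 2 (by norm_num), e2] at e7
  exact e7

lemma finFib_degS : FinFib degS := (finFib_bool 2).prod (fN2.prod fN2)

lemma det_one : (1 - (X : PowerSeries ℂ) • ((ρ 1 : GL (Fin 8) ℤ) :
    Matrix (Fin 8) (Fin 8) ℤ).map (Int.castRingHom (PowerSeries ℂ))).det = (1 - X) ^ 8 := by
  rw [ρ_coe, A_one, Matrix.map_one _ (by simp) (by simp)]
  have : (1 - (X : PowerSeries ℂ) • (1 : Matrix (Fin 8) (Fin 8) (PowerSeries ℂ))) =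
      Matrix.diagonal (fun _ => 1 - X) := by
    ext1 i j
    by_cases h : i = j
    · subst h; simp
    · simp [h]
  rw [this, Matrix.det_diagonal]
  simp

lemma det_neg : (1 - (X : PowerSeries ℂ) • ((ρ (-1) : GL (Fin 8) ℤ) :
    Matrix (Fin 8) (Fin 8) ℤ).map (Int.castRingHom (PowerSeries ℂ))).det =
    (1 + X) * (1 - X) ^ 7 := by
  rw [ρ_coe, Matrix.det_of_isUpperTriangular]
  · rw [Fin.prod_univ_eight]
    simp [A]
    ring
  · intro i j hij
    have hne : i ≠ j := by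
      rintro rfl
      exact lt_irrefl _ hij
    have h0 : i ≠ 0 := by
      rintro rfl
      simp at hij
    simp [A, hne, h0]

lemma Hstar_one : Hstar ρ V 1 = (1 + X) * (1 + X ^ 3) := by
  unfold Hstar
  rw [det_one]
  have h : PowerSeries.mk (fun m => (chi ρ V m 1 : ℂ)) = gf degQ * gf degR := by
    rw [← gf_prod finFib_degQ finFib_degR]
    ext m
    simp only [gf, coeff_mk, card_one]
  rw [h, gf_degQ, gf_degR]
  have h1 := g1_mul
  calc (1 + X ^ 1) * (g1 * (g1 * g1)) * ((1 + X ^ 3) * (g1 * (g1 * (g1 * (g1 * (g1 * g1)))))) *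
        ((1 - X) * (1 - X) ^ 8)
      = (1 + X) * (1 + X ^ 3) * (g1 * (1 - X)) ^ 9 := by ring
    _ = (1 + X) * (1 + X ^ 3) := by rw [h1]; ring

lemma one_add_X_ne : (1 + X : PowerSeries ℂ) ≠ 0 := by
  intro h
  have := congrArg (coeff 0) h
  simp at this

lemma Hstar_neg : Hstar ρ V (-1) = (1 + X ^ 2) * (1 - X + X ^ 2) := by
  unfold Hstar
  rw [det_neg]
  have h : PowerSeries.mk (fun m => (chi ρ V m (-1) : ℂ)) = gf degS * gf degR := by
    rw [← gf_prod finFib_degS finFib_degR]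
    ext m
    simp only [gf, coeff_mk, card_neg]
  rw [h, gf_degS, gf_degR]
  have h1 := g1_mul
  have h2 := g2_mul
  apply mul_right_cancel₀ one_add_X_ne
  calc (1 + X ^ 2) * (gf (gN 2) * gf (gN 2)) *
        ((1 + X ^ 3) * (g1 * (g1 * (g1 * (g1 * (g1 * g1)))))) *
        ((1 - X) * ((1 + X) * (1 - X) ^ 7)) * (1 + X)
      = (1 + X ^ 2) * (1 + X ^ 3) * (gf (gN 2) * (1 - X ^ 2)) ^ 2 * (g1 * (1 - X)) ^ 6 := by
        ring
    _ = (1 + X ^ 2) * (1 - X + X ^ 2) * (1 + X) := by rw [h1, h2]; ring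

lemma coeff_one_two : coeff 2 (Hstar ρ V 1) = 0 := by
  rw [Hstar_one]
  have : ((1 + X) * (1 + X ^ 3) : PowerSeries ℂ) = 1 + X + X ^ 3 + X ^ 4 := by ring
  rw [this]
  simp [coeff_one, coeff_X, coeff_X_pow]

lemma coeff_neg_two : coeff 2 (Hstar ρ V (-1)) = 2 := by
  rw [Hstar_neg]
  have : ((1 + X ^ 2) * (1 - X + X ^ 2) : PowerSeries ℂ) =
      1 - X + (X ^ 2 + X ^ 2) - X ^ 3 + X ^ 4 := by ring
  rw [this]
  simp [coeff_one, coeff_X, coeff_X_pow]
  norm_num

lemma isPolynomial : IsPolynomial ρ V := by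
  unfold IsPolynomial
  apply (Set.finite_Iio 5).subset
  rintro i ⟨g, hg⟩
  by_contra hi
  simp only [Set.mem_Iio, not_lt] at hi
  apply hg
  rcases Int.units_eq_one_or g with rfl | rfl
  · rw [Hstar_one]
    have : ((1 + X) * (1 + X ^ 3) : PowerSeries ℂ) = 1 + X + X ^ 3 + X ^ 4 := by ring
    rw [this]
    have h0 : i ≠ 0 := by omega
    have h1 : i ≠ 1 := by omega
    have h3 : i ≠ 3 := by omega
    have h4 : i ≠ 4 := by omega
    simp [coeff_one, coeff_X, coeff_X_pow, h0, h1, h3, h4]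
  · rw [Hstar_neg]
    have : ((1 + X ^ 2) * (1 - X + X ^ 2) : PowerSeries ℂ) =
        1 - X + (X ^ 2 + X ^ 2) - X ^ 3 + X ^ 4 := by ring
    rw [this]
    have h0 : i ≠ 0 := by omega
    have h1 : i ≠ 1 := by omega
    have h2 : i ≠ 2 := by omega
    have h3 : i ≠ 3 := by omega
    have h4 : i ≠ 4 := by omega
    simp [coeff_one, coeff_X, coeff_X_pow, h0, h1, h2, h3, h4]

lemma not_isEffective : ¬ IsEffective ρ V := by
  intro h
  obtain ⟨W, hW⟩ := h 2
  have h1 := hW 1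
  rw [coeff_one_two, FDRep.char_one] at h1
  have h2 := hW (-1)
  rw [coeff_neg_two] at h2
  have hfr : Module.finrank ℂ W = 0 := by exact_mod_cast h1
  have hsub : Subsingleton W := Module.finrank_zero_iff.mp hfr
  have h3 : W.character (-1) = 0 := by
    unfold FDRep.character
    have : W.ρ (-1) = 0 := by
      ext x
      exact Subsingleton.elim _ _
    rw [this]
    simp
  rw [h3] at h2
  norm_num at h2

lemma invariant (u : ℤˣ) (p : Fin 8 → ℝ) (hp : p ∈ polytope V) :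
    (((ρ u : GL (Fin 8) ℤ) : Matrix (Fin 8) (Fin 8) ℤ).map (Int.castRingHom ℝ)).mulVec p ∈
      polytope V := by
  rcases Int.units_eq_one_or u with rfl | rfl
  · rw [ρ_coe, A_one, Matrix.map_one _ (by simp) (by simp), Matrix.one_mulVec]
    exact hp
  · rw [mem_polytope_iff] at hp ⊢
    obtain ⟨h1, h2, h3, h4, h5, h6, h7, h8, h9, h10⟩ := hp
    rw [ρ_coe]
    constructor <;> simp [Matrix.mulVec, dotProduct, Fin.sum_univ_eight, A] <;> linarith

lemma span_top : affineSpan ℝ (polytope V) = ⊤ := by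
  have hconv : Convex ℝ (polytope V) := convex_convexHull ℝ _
  rw [← hconv.interior_nonempty_iff_affineSpan_eq_top]
  let U : Set (Fin 8 → ℝ) := {x | 0 < x 0} ∩ ({x | x 0 < x 7} ∩ ({x | 0 < x 1} ∩
    ({x | x 1 < x 7} ∩ ({x | 0 < x 6} ∩ ({x | x 6 < 2 * x 2} ∩ ({x | x 6 < 2 * x 3} ∩
    ({x | x 6 < 2 * x 4} ∩ ({x | x 6 < 2 * x 5} ∩
    {x | 2 * (x 2 + x 3 + x 4 + x 5) - 3 * x 6 < 2 * (1 - x 7)}))))))))
  have hU : IsOpen U := by
    have hc : ∀ i : Fin 8, Continuous fun x : Fin 8 → ℝ => x i := fun i => continuous_apply i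
    refine IsOpen.inter ?_ (IsOpen.inter ?_ (IsOpen.inter ?_ (IsOpen.inter ?_ (IsOpen.inter ?_
      (IsOpen.inter ?_ (IsOpen.inter ?_ (IsOpen.inter ?_ (IsOpen.inter ?_ ?_))))))))
    · exact isOpen_lt continuous_const (hc 0)
    · exact isOpen_lt (hc 0) (hc 7)
    · exact isOpen_lt continuous_const (hc 1)
    · exact isOpen_lt (hc 1) (hc 7)
    · exact isOpen_lt continuous_const (hc 6)
    · exact isOpen_lt (hc 6) (continuous_const.mul (hc 2))
    · exact isOpen_lt (hc 6) (continuous_const.mul (hc 3))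
    · exact isOpen_lt (hc 6) (continuous_const.mul (hc 4))
    · exact isOpen_lt (hc 6) (continuous_const.mul (hc 5))
    · exact isOpen_lt ((continuous_const.mul ((((hc 2).add (hc 3)).add (hc 4)).add (hc 5))).sub
        (continuous_const.mul (hc 6))) (continuous_const.mul (continuous_const.sub (hc 7)))
  have hsub : U ⊆ polytope V := by
    rintro x ⟨h1, h2, h3, h4, h5, h6, h7, h8, h9, h10⟩
    rw [mem_polytope_iff]
    simp only [Set.mem_setOf_eq] at h1 h2 h3 h4 h5 h6 h7 h8 h9 h10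
    exact ⟨h1.le, h2.le, h3.le, h4.le, h5.le, h6.le, h7.le, h8.le, h9.le, h10.le⟩
  refine ⟨![1 / 8, 1 / 8, 1 / 100, 1 / 100, 1 / 100, 1 / 100, 1 / 100, 1 / 4],
    interior_maximal hsub hU ?_⟩
  refine ⟨?_, ?_, ?_, ?_, ?_, ?_, ?_, ?_, ?_, ?_⟩ <;> simp <;> norm_num

/-- The summary. -/
theorem counterexample : affineSpan ℝ (polytope V) = ⊤ ∧
    (∀ (g : ℤˣ), ∀ p ∈ polytope V,
      (((ρ g : GL (Fin 8) ℤ) : Matrix (Fin 8) (Fin 8) ℤ).map (Int.castRingHom ℝ)).mulVec p ∈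
        polytope V) ∧
    IsPolynomial ρ V ∧ ¬ IsEffective ρ V :=
  ⟨span_top, invariant, isPolynomial, not_isEffective⟩

end Pool.Agent.Y348.EE
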